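import Pool.Agent.H14.PD.Stmts

/-!
Project PD, module DST: the end points of the exponentially distorted path are far apart.
-/

set_option autoImplicit false

namespace Pool.Agent.H14.PD

theorem pd_dst : M_DST := by
  intro hPRB hTRB hRDB hLEN hTRC hLOG hSLP V S M b r k hk
  by_contra hcon
  rw [not_le] at hcon
  unfold lam at hcon
  set A : Set ℕ := {n : ℕ | n = 2 ^ k ∨ ∃ u : List S, M.Sl 0 b (M.o, 0) u ∧
    (∀ s ∈ u, ¬ M.big s) ∧ pr M.cm u = pr M.cm (M.vdn r ++ M.vup r) ∧ u.length = n} with hA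
  have hne : A.Nonempty := ⟨2 ^ k, Or.inl rfl⟩
  have hmem : sInf A ∈ A := Nat.sInf_mem hne
  have hlt : sInf A < 2 ^ k := by exact_mod_cast hcon
  rcases hmem with h | ⟨u, hSl, hsm, hpr, hlen⟩
  · omega
  obtain ⟨p1, p2, p3, p4, p5, p6⟩ := hPRB S M.cm
  obtain ⟨-, s2, s3, s4, -, -, -, -, -⟩ := hSLP V S M.toMc 0 b
  obtain ⟨-, s2', -, -, -, -, -, -, -⟩ := hSLP V S M.toMc (-(r * M.m : ℤ)) 0
  have hTu : Tr M.lf.lab M.lact (M.o, 0) u := s2 _ _ hSl.2
  have hTv : Tr M.lf.lab M.lact (M.o, 0) (M.vdn r ++ M.vup r) := s2' _ _ (M.v_sl r).2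
  have hTu' : Tr M.lab M.act M.o u := (s3 (M.o, 0) u).1 hTu
  have hTv' : Tr M.lab M.act M.o (M.vdn r ++ M.vup r) := (s3 (M.o, 0) _).1 hTv
  obtain ⟨q1, q2, hq, hle⟩ := hLOG V S M.toCx M.grid k M.o u (M.vdn r) (M.vup r) hTu'
    (by rw [hlen]; exact hlt.le) (M.v_rd r) hTv' hpr.symm
  obtain ⟨t1, t2, -, t4⟩ := hTRB (V × ℤ) S M.lf.lab M.lact
  have hTv1 := (t1 _ _ _).1 hTv
  obtain ⟨hback, hback2⟩ := t4 M.lf.inv (M.o, 0) (M.vdn r) hTv1.1
  subst hq
  have hTq := (t1 _ _ _).1 hTu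
  set y1 := en M.lact (M.o, 0) (M.vdn r) with hy1
  have hTw : Tr M.lf.lab M.lact y1 ((M.vdn r).reverse ++ q1) := by
    rw [t1]
    refine ⟨hback, ?_⟩
    rw [hback2]
    exact hTq.1
  obtain ⟨-, -, c3, -⟩ := hTRC (V × ℤ) S M.lf
  obtain ⟨w', hRd, hTw', hpr', hen', -, hmem'⟩ := c3 y1 _ hTw
  have hsmall : ∀ s ∈ w', ¬ M.big s := by
    intro s hs
    have h1 := hmem' s hs
    rw [List.mem_append, List.mem_reverse] at h1
    rcases h1 with h1 | h1
    · exact M.v_small r s (List.mem_append_left _ h1)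
    · exact hsm s (List.mem_append_left _ h1)
  have hlen2 : len M.cm (pr M.cm w') = w'.length :=
    (hLEN S M.cm M.cm_symm M.cm_irr).2.1 w' hRd
  have hprw : pr M.cm w' = (pr M.cm (M.vdn r))⁻¹ * pr M.cm q1 := by
    have e : pr M.cm w' = pr M.cm ((M.vdn r).reverse ++ q1) := hpr'
    rw [e, p3, p6]
  have hw6 : w'.length ≤ 6 * k := by
    rw [← hlen2, hprw]
    exact hle
  have hheight := s4 y1 w' hTw' hsmall
  have hend : en M.lact y1 w' = en M.lact (M.o, 0) q1 := by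
    have e : en M.lact y1 w' = en M.lact y1 ((M.vdn r).reverse ++ q1) := hen'
    rw [e, t2, hback2]
  have hbot : y1.2 = -(r * M.m : ℤ) := M.v_bot r
  have hpos : 0 ≤ (en M.lact (M.o, 0) q1).2 := by
    obtain ⟨-, -, -, -, -, s6, s7, -, -⟩ := hSLP V S M.toMc 0 b
    have h1 := (s6 _ _ _).1 hSl
    exact (s7 _ _ h1.1).1
  rw [hend, hbot] at hheight
  have h2 : (en M.lact (M.o, 0) q1).2 - -(r * M.m : ℤ) ≤ w'.length := le_trans (le_abs_self _) hheight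
  have h3 : (r * M.m : ℤ) ≤ 6 * k := by
    have : (w'.length : ℤ) ≤ 6 * k := by exact_mod_cast hw6
    linarith
  have h4 : r * M.m ≤ 6 * k := by exact_mod_cast h3
  omega

end Pool.Agent.H14.PD
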