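import Pool.Agent.H14.PD.Stmts

/-!
Project PD, module FIB: the essential relators of a slab are finitely many.
-/

set_option autoImplicit false

namespace Pool.Agent.H14.PD

theorem pd_fib_of_mem {X : Type} (A : Set X) (x : X)
    (h : FreeGroup.of x ∈ Subgroup.closure (FreeGroup.of '' A)) : x ∈ A := by
  classical
  by_contra hx
  let f : FreeGroup X →* Multiplicative ℤ :=
    FreeGroup.lift (fun z => if z = x then Multiplicative.ofAdd 1 else 1)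
  have h1 : Subgroup.closure (FreeGroup.of '' A) ≤ f.ker := by
    rw [Subgroup.closure_le]
    rintro _ ⟨z, hz, rfl⟩
    show f (FreeGroup.of z) = 1
    rw [FreeGroup.lift_apply_of, if_neg]
    rintro rfl
    exact hx hz
  have h2 : f (FreeGroup.of x) = 1 := h1 h
  rw [FreeGroup.lift_apply_of, if_pos rfl] at h2
  have h3 := congrArg Multiplicative.toAdd h2
  simp at h3

theorem pd_fib_wd {V S : Type} (M : Mc V S) (a b : ℤ) (w : List S) :
    ∀ y : V × ℤ, Tr (M.slab a b).lab (M.slab a b).act y w → wd (M.slab a b).act y w ∈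
      Subgroup.closure (FreeGroup.of '' {x : (V × ℤ) × S | a ≤ x.1.2 ∧ x.1.2 ≤ b}) := by
  induction w with
  | nil => intro y _; exact Subgroup.one_mem _
  | cons s w ih =>
    intro y h
    obtain ⟨h1, h2⟩ := h
    exact Subgroup.mul_mem _ (Subgroup.subset_closure ⟨(y, s), h1.2.1, rfl⟩) (ih _ h2)

theorem pd_fib : M_FIB := by
  intro hTRB hTAU hSLP V S _ _ M a b y0 hy0
  classical
  have hVf : Set.Finite {y : V × ℤ | a ≤ y.2 ∧ y.2 ≤ b} := by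
    have h : {y : V × ℤ | a ≤ y.2 ∧ y.2 ≤ b} ⊆ (Set.univ : Set V) ×ˢ Set.Icc a b := by
      rintro y hy
      exact ⟨Set.mem_univ _, hy⟩
    exact (Set.Finite.prod Set.finite_univ (Set.finite_Icc a b)).subset h
  have hA : Set.Finite {x : (V × ℤ) × S | a ≤ x.1.2 ∧ x.1.2 ≤ b} := by
    have h : {x : (V × ℤ) × S | a ≤ x.1.2 ∧ x.1.2 ≤ b} ⊆
        {y : V × ℤ | a ≤ y.2 ∧ y.2 ≤ b} ×ˢ (Set.univ : Set S) := by
      rintro x hx
      exact ⟨hx, Set.mem_univ _⟩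
    exact (hVf.prod Set.finite_univ).subset h
  obtain ⟨-, t2, -, -, -, -, -⟩ := hTAU (V × ℤ) S (M.slab a b) y0
  obtain ⟨-, -, -, -, -, -, s7, -, -⟩ := hSLP V S M a b
  have hRc : ∀ y, (M.slab a b).Rc y0 y → a ≤ y.2 ∧ y.2 ≤ b := by
    rintro y ⟨w, hw, rfl⟩
    exact s7 y0 w ⟨hy0, hw⟩
  refine ⟨hA, ?_, ?_⟩
  · rintro r (⟨y, s, h, rfl⟩ | ⟨y, s, h1, h2, rfl⟩ | ⟨y, s, t, h1, h2, h3, h4, rfl⟩ |
      ⟨y, h1, rfl⟩)
    · by_cases hx : (y, s) ∈ {x : (V × ℤ) × S | a ≤ x.1.2 ∧ x.1.2 ≤ b}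
      · exact Or.inr (Subgroup.subset_closure ⟨_, hx, rfl⟩)
      · exact Or.inl ⟨_, hx, rfl⟩
    · right
      exact pd_fib_wd M a b [s, s] y ⟨h2, ((M.slab a b).inv y s h2).1, trivial⟩
    · right
      exact pd_fib_wd M a b [s, t, s, t] y h3
    · right
      exact pd_fib_wd M a b _ y0 (t2 y)
  · have hf1 : Set.Finite ((fun x : (V × ℤ) × S => FreeGroup.of x) ''
        {x : (V × ℤ) × S | a ≤ x.1.2 ∧ x.1.2 ≤ b}) := hA.image _
    have hf2 : Set.Finite ((fun x : (V × ℤ) × S => wd (M.slab a b).act x.1 [x.2, x.2]) ''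
        {x : (V × ℤ) × S | a ≤ x.1.2 ∧ x.1.2 ≤ b}) := hA.image _
    have hf3 : Set.Finite ((fun x : ((V × ℤ) × S) × S =>
        wd (M.slab a b).act x.1.1 [x.1.2, x.2, x.1.2, x.2]) ''
        ({x : (V × ℤ) × S | a ≤ x.1.2 ∧ x.1.2 ≤ b} ×ˢ (Set.univ : Set S))) :=
      (hA.prod Set.finite_univ).image _
    have hf4 : Set.Finite ((fun y : V × ℤ => wd (M.slab a b).act y0 ((M.slab a b).tau y0 y)) ''
        {y : V × ℤ | a ≤ y.2 ∧ y.2 ≤ b}) := hVf.image _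
    apply (((hf1.union hf2).union hf3).union hf4).subset
    rintro r ⟨⟨y, s, h, rfl⟩ | ⟨y, s, h1, h2, rfl⟩ | ⟨y, s, t, h1, h2, h3, h4, rfl⟩ |
      ⟨y, h1, rfl⟩, hcl⟩
    · exact Or.inl (Or.inl (Or.inl ⟨(y, s), pd_fib_of_mem _ _ hcl, rfl⟩))
    · exact Or.inl (Or.inl (Or.inr ⟨(y, s), h2.2.1, rfl⟩))
    · exact Or.inl (Or.inr ⟨((y, s), t), ⟨h3.1.2.1, Set.mem_univ _⟩, rfl⟩)
    · exact Or.inr ⟨y, hRc y h1, rfl⟩

end Pool.Agent.H14.PD
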